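import Mathlib

set_option autoImplicit false

namespace Pool.Agent.Helper580.Engel

variable {G : Type*} [Group G]

theorem phi_mul (φ : G →* (ℝ ≃o ℝ)) (g h : G) (t : ℝ) : φ (g * h) t = φ g (φ h t) := by
  rw [map_mul]; rfl

theorem phi_one (φ : G →* (ℝ ≃o ℝ)) (t : ℝ) : φ 1 t = t := by
  rw [map_one]; rfl

theorem phi_inv_apply (φ : G →* (ℝ ≃o ℝ)) (g : G) (t : ℝ) : φ g⁻¹ (φ g t) = t := by
  rw [← phi_mul, inv_mul_cancel, phi_one]

theorem phi_apply_inv (φ : G →* (ℝ ≃o ℝ)) (g : G) (t : ℝ) : φ g (φ g⁻¹ t) = t := by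
  rw [← phi_mul, mul_inv_cancel, phi_one]

/-- one interval -/
theorem displace_one (φ : G →* (ℝ ≃o ℝ)) (S : Subgroup G) (l r x y : ℝ)
    (hlx : l < x) (_hxy : x ≤ y) (hyr : y < r)
    (hfree : ∀ t, l < t → t < r → ∃ g ∈ S, φ g t ≠ t) : ∃ h ∈ S, y < φ h x := by
  by_contra hcon
  push Not at hcon
  set A : Set ℝ := {a | ∃ g ∈ S, φ g x = a} with hA
  have hne : A.Nonempty := ⟨x, 1, S.one_mem, phi_one φ x⟩
  have hbdd : BddAbove A := ⟨y, by rintro a ⟨g, hg, rfl⟩; exact hcon g hg⟩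
  have h1 : x ≤ sSup A := le_csSup hbdd ⟨1, S.one_mem, phi_one φ x⟩
  have h2 : sSup A ≤ y := csSup_le hne (by rintro a ⟨g, hg, rfl⟩; exact hcon g hg)
  have h3 : ∀ g ∈ S, sSup A ≤ φ g⁻¹ (sSup A) := by
    intro g hg
    apply csSup_le hne
    rintro a ⟨k, hk, rfl⟩
    have h4 : φ g (φ k x) ≤ sSup A := le_csSup hbdd ⟨g * k, S.mul_mem hg hk, phi_mul φ g k x⟩
    have h5 := (φ g⁻¹).monotone h4
    rwa [phi_inv_apply] at h5
  obtain ⟨g, hg, hgt⟩ := hfree (sSup A) (lt_of_lt_of_le hlx h1) (lt_of_le_of_lt h2 hyr)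
  apply hgt
  apply le_antisymm
  · have h5 := (φ g).monotone (h3 g hg)
    rwa [phi_apply_inv] at h5
  · have h5 := h3 g⁻¹ (S.inv_mem hg)
    rwa [inv_inv] at h5

/-- simultaneous displacement -/
theorem displace (φ : G →* (ℝ ≃o ℝ)) (S : Subgroup G) {ι : Type*} (l r : ι → ℝ) (s : Finset ι) :
    ∀ (x y : ι → ℝ), (∀ i ∈ s, ∀ g ∈ S, φ g (l i) = l i) → (∀ i ∈ s, ∀ g ∈ S, φ g (r i) = r i) →
    (∀ i ∈ s, l i < x i) → (∀ i ∈ s, x i ≤ y i) → (∀ i ∈ s, y i < r i) →
    (∀ i ∈ s, ∀ t, l i < t → t < r i → ∃ g ∈ S, φ g t ≠ t) →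
    ∃ g ∈ S, ∀ i ∈ s, φ g (y i) < x i ∨ y i < φ g (x i) := by
  classical
  induction s using Finset.induction_on with
  | empty => intro x y _ _ _ _ _ _; exact ⟨1, S.one_mem, by simp⟩
  | insert m s hm ih =>
    intro x y hl hr hlx hxy hyr hfree
    have hmi : m ∈ insert m s := Finset.mem_insert_self m s
    have hsi : ∀ i ∈ s, i ∈ insert m s := fun i hi => Finset.mem_insert_of_mem hi
    obtain ⟨h, hh, hhx⟩ := displace_one φ S (l m) (r m) (x m) (y m) (hlx m hmi) (hxy m hmi)
      (hyr m hmi) (hfree m hmi)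
    obtain ⟨g, hg, hgs⟩ := ih (fun i => min (x i) (φ h (x i))) (fun i => max (y i) (φ h (y i)))
      (fun i hi => hl i (hsi i hi)) (fun i hi => hr i (hsi i hi))
      (fun i hi => by
        apply lt_min (hlx i (hsi i hi))
        have := (φ h).strictMono (hlx i (hsi i hi))
        rwa [hl i (hsi i hi) h hh] at this)
      (fun i hi => le_trans (min_le_left _ _) (le_trans (hxy i (hsi i hi)) (le_max_left _ _)))
      (fun i hi => by
        apply max_lt (hyr i (hsi i hi))
        have := (φ h).strictMono (hyr i (hsi i hi))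
        rwa [hr i (hsi i hi) h hh] at this)
      (fun i hi => hfree i (hsi i hi))
    -- two candidates
    have hcand : (φ (g * h) (y m) < x m ∨ y m < φ (g * h) (x m)) ∨
        (φ (h⁻¹ * g) (y m) < x m ∨ y m < φ (h⁻¹ * g) (x m)) := by
      by_contra hcon
      push Not at hcon
      obtain ⟨⟨_, h2⟩, h3, _⟩ := hcon
      rw [phi_mul] at h2 h3
      have h4 := (φ h).monotone h3
      rw [phi_apply_inv] at h4
      have h5 : φ g (y m) < φ g (φ h (x m)) := (φ g).strictMono hhx
      linarith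
    have hA : ∀ i ∈ s, φ (g * h) (y i) < x i ∨ y i < φ (g * h) (x i) := by
      intro i hi
      rw [phi_mul, phi_mul]
      rcases hgs i hi with h1 | h1
      · left
        calc φ g (φ h (y i)) ≤ φ g (max (y i) (φ h (y i))) := (φ g).monotone (le_max_right _ _)
          _ < min (x i) (φ h (x i)) := h1
          _ ≤ x i := min_le_left _ _
      · right
        calc y i ≤ max (y i) (φ h (y i)) := le_max_left _ _
          _ < φ g (min (x i) (φ h (x i))) := h1
          _ ≤ φ g (φ h (x i)) := (φ g).monotone (min_le_right _ _)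
    have hB : ∀ i ∈ s, φ (h⁻¹ * g) (y i) < x i ∨ y i < φ (h⁻¹ * g) (x i) := by
      intro i hi
      rw [phi_mul, phi_mul]
      rcases hgs i hi with h1 | h1
      · left
        have h2 : φ g (y i) < φ h (x i) :=
          calc φ g (y i) ≤ φ g (max (y i) (φ h (y i))) := (φ g).monotone (le_max_left _ _)
            _ < min (x i) (φ h (x i)) := h1
            _ ≤ φ h (x i) := min_le_right _ _
        have h3 := (φ h⁻¹).strictMono h2
        rwa [phi_inv_apply] at h3
      · right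
        have h2 : φ h (y i) < φ g (x i) :=
          calc φ h (y i) ≤ max (y i) (φ h (y i)) := le_max_right _ _
            _ < φ g (min (x i) (φ h (x i))) := h1
            _ ≤ φ g (x i) := (φ g).monotone (min_le_left _ _)
        have h3 := (φ h⁻¹).strictMono h2
        rwa [phi_inv_apply] at h3
    rcases hcand with hc | hc
    · refine ⟨g * h, S.mul_mem hg hh, ?_⟩
      intro i hi
      rcases Finset.mem_insert.1 hi with rfl | hi
      · exact hc
      · exact hA i hi
    · refine ⟨h⁻¹ * g, S.mul_mem (S.inv_mem hh) hg, ?_⟩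
      intro i hi
      rcases Finset.mem_insert.1 hi with rfl | hi
      · exact hc
      · exact hB i hi

end Pool.Agent.Helper580.Engel
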