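import Mathlib
import Pool.Agent.Helper580.Engel.Disp

set_option autoImplicit false

namespace Pool.Agent.Helper580.Engel

open Filter Topology

variable {G : Type*} [Group G]

/-- the common fixed points -/
def FixS (φ : G →* (ℝ ≃o ℝ)) (S : Subgroup G) : Set ℝ := {t | ∀ s ∈ S, φ s t = t}

def UA (C : Set ℝ) : Prop := ∀ M : ℝ, ∃ t ∈ C, M < t

def kk : ℕ → ℕ
  | 0 => 0
  | j + 1 => 2 * kk j + 1

theorem isClosed_FixS (φ : G →* (ℝ ≃o ℝ)) (S : Subgroup G) : IsClosed (FixS φ S) := by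
  have : FixS φ S = ⋂ s ∈ S, {t | φ s t = t} := by
    ext t; simp [FixS]
  rw [this]
  exact isClosed_biInter (fun s _ => isClosed_eq (φ s).continuous continuous_id)

noncomputable def lo (C : Set ℝ) (x : ℝ) : ℝ := sSup (C ∩ Set.Iic x)
noncomputable def up (C : Set ℝ) (x : ℝ) : ℝ := sInf (C ∩ Set.Ici x)

theorem lo_mem {C : Set ℝ} (hC : IsClosed C) {c x : ℝ} (hc : c ∈ C) (hcx : c ≤ x) :
    lo C x ∈ C ∧ lo C x ≤ x ∧ c ≤ lo C x := by
  have hne : (C ∩ Set.Iic x).Nonempty := ⟨c, hc, hcx⟩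
  have hbdd : BddAbove (C ∩ Set.Iic x) := ⟨x, fun y hy => hy.2⟩
  have hcl : IsClosed (C ∩ Set.Iic x) := hC.inter isClosed_Iic
  have h := hcl.csSup_mem hne hbdd
  exact ⟨h.1, h.2, le_csSup hbdd ⟨hc, hcx⟩⟩

theorem up_mem {C : Set ℝ} (hC : IsClosed C) {c x : ℝ} (hc : c ∈ C) (hcx : x ≤ c) :
    up C x ∈ C ∧ x ≤ up C x ∧ up C x ≤ c := by
  have hne : (C ∩ Set.Ici x).Nonempty := ⟨c, hc, hcx⟩
  have hbdd : BddBelow (C ∩ Set.Ici x) := ⟨x, fun y hy => hy.2⟩
  have hcl : IsClosed (C ∩ Set.Ici x) := hC.inter isClosed_Ici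
  have h := hcl.csInf_mem hne hbdd
  exact ⟨h.1, h.2, csInf_le hbdd ⟨hc, hcx⟩⟩

theorem not_mem_of_between {C : Set ℝ} {x t : ℝ} (h1 : lo C x < t) (h2 : t < up C x) (hx : x ∉ C) : t ∉ C := by
  intro ht
  rcases lt_trichotomy t x with h | h | h
  · have : t ≤ lo C x := le_csSup ⟨x, fun y hy => hy.2⟩ ⟨ht, h.le⟩
    linarith
  · exact hx (h ▸ ht)
  · have : up C x ≤ t := csInf_le ⟨x, fun y hy => hy.2⟩ ⟨ht, h.le⟩
    linarith

/-- good points -/
def Good (C : Set ℝ) (c0 : ℝ) (f g : ℝ → ℝ) : ℕ → ℝ → Prop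
  | 0, x => c0 < x ∧ x ∉ C
  | k + 1, x => c0 < x ∧ x ∉ C ∧ Good C c0 f g k (f (lo C x)) ∧ Good C c0 f g k (f (up C x)) ∧
      Good C c0 f g k (g (lo C x)) ∧ Good C c0 f g k (g (up C x))

theorem Good.base {C : Set ℝ} {c0 : ℝ} {f g : ℝ → ℝ} {k : ℕ} {x : ℝ} (h : Good C c0 f g k x) :
    c0 < x ∧ x ∉ C := by
  cases k with
  | zero => exact h
  | succ k => exact ⟨h.1, h.2.1⟩

theorem exists_good {C : Set ℝ} (hC : IsClosed C) (hUA : UA C) (c0 : ℝ) (b : ℝ ≃o ℝ)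
    (hb : ∀ e ∈ C, c0 < e → b e ∉ C ∧ b.symm e ∉ C) (k : ℕ) :
    ∃ T : ℝ, ∀ x, T < x → x ∉ C → Good C c0 b b.symm k x := by
  induction k with
  | zero => exact ⟨c0, fun x hx hxC => ⟨hx, hxC⟩⟩
  | succ k ih =>
    obtain ⟨T, hT⟩ := ih
    obtain ⟨c, hc, hcM⟩ := hUA (max c0 (max T (max (b T) (b.symm T))))
    refine ⟨c, fun x hx hxC => ?_⟩
    have hc0 : c0 < c := lt_of_le_of_lt (le_max_left _ _) hcM
    have h2 := lt_of_le_of_lt (le_max_right _ _) hcM
    have hbT : b T < c := lt_of_le_of_lt (le_trans (le_max_left _ _) (le_max_right _ _)) h2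
    have hbT' : b.symm T < c := lt_of_le_of_lt (le_trans (le_max_right _ _) (le_max_right _ _)) h2
    obtain ⟨hl1, hl2, hl3⟩ := lo_mem hC hc hx.le
    obtain ⟨c', hc', hcx'⟩ := hUA x
    obtain ⟨hr1, hr2, _⟩ := up_mem hC hc' hcx'.le
    have hlb : ∀ e, e ∈ C → c ≤ e → Good C c0 b b.symm k (b e) ∧ Good C c0 b b.symm k (b.symm e) := by
      intro e he hce
      obtain ⟨h5, h6⟩ := hb e he (lt_of_lt_of_le hc0 hce)
      refine ⟨hT _ ?_ h5, hT _ ?_ h6⟩
      · have := b.strictMono (lt_of_lt_of_le hbT' hce)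
        rwa [b.apply_symm_apply] at this
      · have := b.symm.strictMono (lt_of_lt_of_le hbT hce)
        rwa [b.symm_apply_apply] at this
    obtain ⟨g1, g2⟩ := hlb _ hl1 hl3
    obtain ⟨g3, g4⟩ := hlb _ hr1 (le_trans hx.le hr2)
    exact ⟨lt_trans hc0 hx, hxC, g1, g3, g2, g4⟩

/-- the finite sets of points -/
noncomputable def XX (C : Set ℝ) (f g : ℝ → ℝ) (p : ℝ) : ℕ → Finset ℝ
  | 0 => {p}
  | i + 1 => (XX C f g p i).biUnion (fun x => {f (lo C x), f (up C x), g (lo C x), g (up C x)})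

theorem XX_good {C : Set ℝ} {c0 : ℝ} {f g : ℝ → ℝ} {p : ℝ} :
    ∀ (i k : ℕ), Good C c0 f g (i + k) p → ∀ x ∈ XX C f g p i, Good C c0 f g k x := by
  intro i
  induction i with
  | zero => intro k hp x hx; simp only [XX, Finset.mem_singleton] at hx; subst hx; simpa using hp
  | succ i ih =>
    intro k hp x hx
    simp only [XX, Finset.mem_biUnion] at hx
    obtain ⟨y, hy, hxy⟩ := hx
    have h1 : Good C c0 f g (k + 1) y := ih (k + 1) (by rwa [show i + (k + 1) = i + 1 + k by ring]) y hy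
    obtain ⟨_, _, a1, a2, a3, a4⟩ := h1
    simp only [Finset.mem_insert, Finset.mem_singleton] at hxy
    rcases hxy with rfl | rfl | rfl | rfl <;> assumption

theorem exists_p {C : Set ℝ} (hC : IsClosed C) (hUA : UA C) (c0 : ℝ) (b : ℝ ≃o ℝ)
    (hb : ∀ e ∈ C, c0 < e → b e ∉ C ∧ b.symm e ∉ C) (T : ℝ) : ∃ p, T < p ∧ p ∉ C ∧ b p ∉ C := by
  by_contra hcon
  push Not at hcon
  set T' := max T c0 with hT'
  have hpre : IsPreconnected (Set.Ioi T') := isPreconnected_Ioi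
  rw [isPreconnected_closed_iff] at hpre
  have hC2 : IsClosed (b ⁻¹' C) := hC.preimage b.continuous
  obtain ⟨t, ht, ht1, ht2⟩ := hpre C (b ⁻¹' C) hC hC2 (by
      intro x hx
      by_cases hxC : x ∈ C
      · exact Or.inl hxC
      · exact Or.inr (hcon x (lt_of_le_of_lt (le_max_left _ _) hx) hxC))
    (by obtain ⟨t, ht, htM⟩ := hUA T'; exact ⟨t, htM, ht⟩)
    (by
      obtain ⟨t, ht, htM⟩ := hUA (b T')
      refine ⟨b.symm t, ?_, ?_⟩
      · have := b.symm.strictMono htM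
        rwa [b.symm_apply_apply] at this
      · simpa using ht)
  exact (hb t ht1 (lt_of_le_of_lt (le_max_right _ _) ht)).1 ht2

theorem ev1 (f : ℝ ≃o ℝ) (e a : ℝ) (h : a < f e) : ∀ᶠ δ in 𝓝[>] (0:ℝ), a + δ ≤ f (e - δ) := by
  have hc : Continuous (fun δ : ℝ => f (e - δ) - δ) :=
    (f.continuous.comp (continuous_const.sub continuous_id)).sub continuous_id
  have h1 : Tendsto (fun δ : ℝ => f (e - δ) - δ) (𝓝[>] 0) (𝓝 (f (e - 0) - 0)) :=
    (hc.tendsto 0).mono_left nhdsWithin_le_nhds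
  rw [sub_zero, sub_zero] at h1
  filter_upwards [h1.eventually (lt_mem_nhds h)] with δ hδ
  linarith

theorem ev2 (f : ℝ ≃o ℝ) (e a : ℝ) (h : f e < a) : ∀ᶠ δ in 𝓝[>] (0:ℝ), f (e + δ) ≤ a - δ := by
  have hc : Continuous (fun δ : ℝ => f (e + δ) + δ) :=
    (f.continuous.comp (continuous_const.add continuous_id)).add continuous_id
  have h1 : Tendsto (fun δ : ℝ => f (e + δ) + δ) (𝓝[>] 0) (𝓝 (f (e + 0) + 0)) :=
    (hc.tendsto 0).mono_left nhdsWithin_le_nhds
  rw [add_zero, add_zero] at h1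
  filter_upwards [h1.eventually (gt_mem_nhds h)] with δ hδ
  linarith

theorem ev3 (a : ℝ) (h : 0 < a) : ∀ᶠ δ in 𝓝[>] (0:ℝ), δ ≤ a :=
  nhdsWithin_le_nhds (ge_mem_nhds h)

theorem symm_eq (φ : G →* (ℝ ≃o ℝ)) (b : G) (t : ℝ) : (φ b).symm t = φ b⁻¹ t := by
  rw [OrderIso.symm_apply_eq, phi_apply_inv]

/-- L2': one step -/
theorem meet_UA (φ : G →* (ℝ ≃o ℝ)) (n : ℕ) (b : G) (hb : ∀ g : G, (fun w => w * b * w⁻¹)^[n] g = b)
    (S : Subgroup G) (hUA : UA (FixS φ S)) :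
    UA (FixS φ S ∩ {t | φ b⁻¹ t ∈ FixS φ S}) := by
  classical
  by_contra hcon
  unfold UA at hcon
  push Not at hcon
  obtain ⟨M, hM⟩ := hcon
  set C := FixS φ S with hC
  have hCc : IsClosed C := isClosed_FixS φ S
  set B : ℝ ≃o ℝ := φ b with hB
  have hsymm : ∀ t, B.symm t = φ b⁻¹ t := fun t => symm_eq φ b t
  obtain ⟨c0, hc0C, hc0⟩ := hUA (max M (B.symm M))
  have hbC : ∀ e ∈ C, c0 < e → B e ∉ C ∧ B.symm e ∉ C := by
    intro e he hce
    constructor
    · intro h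
      have h1 := hM (B e) ⟨h, by
        show φ b⁻¹ (B e) ∈ C
        rw [← hsymm, B.symm_apply_apply]; exact he⟩
      have h2 := B.symm.monotone h1
      rw [B.symm_apply_apply] at h2
      have := lt_of_le_of_lt (le_max_right M (B.symm M)) hc0
      linarith
    · intro h
      have h1 := hM e ⟨he, by
        show φ b⁻¹ e ∈ C
        rw [← hsymm]; exact h⟩
      have := lt_of_le_of_lt (le_max_left M (B.symm M)) hc0
      linarith
  set m := kk n with hm
  obtain ⟨T, hT⟩ := exists_good hCc hUA c0 B hbC m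
  obtain ⟨p, hTp, hpC, hbpC⟩ := exists_p hCc hUA c0 B hbC T
  have hpG : Good C c0 B B.symm m p := hT p hTp hpC
  set X := XX C B B.symm p with hX
  have hXG : ∀ i k, i + k = m → ∀ x ∈ X i, Good C c0 B B.symm k x := by
    intro i k hik x hx
    exact XX_good i k (by rw [hik]; exact hpG) x hx
  have hXb : ∀ i ≤ m, ∀ x ∈ X i, lo C x ∈ C ∧ lo C x < x ∧ up C x ∈ C ∧ x < up C x ∧ x ∉ C := by
    intro i hi x hx
    obtain ⟨k, hk⟩ := Nat.exists_eq_add_of_le hi
    obtain ⟨h1, h2⟩ := (hXG i k hk.symm x hx).base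
    obtain ⟨a1, a2, _⟩ := lo_mem hCc hc0C h1.le
    obtain ⟨c', hc', hcx'⟩ := hUA x
    obtain ⟨a3, a4, _⟩ := up_mem hCc hc' hcx'.le
    refine ⟨a1, lt_of_le_of_ne a2 ?_, a3, lt_of_le_of_ne a4 ?_, h2⟩
    · intro h; exact h2 (h ▸ a1)
    · intro h; exact h2 (h ▸ a3)
  -- choice of delta
  have hev : ∀ᶠ δ in 𝓝[>] (0:ℝ), 0 < δ ∧ (lo C p + δ ≤ p ∧ p ≤ up C p - δ) ∧
      (∀ i ∈ Finset.range m, ∀ x ∈ X i,
        (lo C (B (lo C x)) + δ ≤ B (lo C x - δ) ∧ B (lo C x + δ) ≤ up C (B (lo C x)) - δ) ∧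
        (lo C (B (up C x)) + δ ≤ B (up C x - δ) ∧ B (up C x + δ) ≤ up C (B (up C x)) - δ) ∧
        (lo C (B.symm (lo C x)) + δ ≤ B.symm (lo C x - δ) ∧
          B.symm (lo C x + δ) ≤ up C (B.symm (lo C x)) - δ) ∧
        (lo C (B.symm (up C x)) + δ ≤ B.symm (up C x - δ) ∧
          B.symm (up C x + δ) ≤ up C (B.symm (up C x)) - δ)) ∧
      (∀ x ∈ X m, δ ≤ |B p - lo C x| ∧ δ ≤ |B p - up C x|) ∧
      (∀ i ∈ Finset.range (m + 1), ∀ x ∈ X i, lo C x + δ ≤ up C x - δ) := by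
    refine Filter.Eventually.and self_mem_nhdsWithin ?_
    refine Filter.Eventually.and ?_ (Filter.Eventually.and ?_ (Filter.Eventually.and ?_ ?_))
    · obtain ⟨_, h2, _, h4, _⟩ := hXb 0 (Nat.zero_le _) p (by simp [hX, XX])
      filter_upwards [ev3 (p - lo C p) (by linarith), ev3 (up C p - p) (by linarith)] with δ h5 h6
      constructor <;> linarith
    · rw [Filter.eventually_all_finset]
      intro i hi
      rw [Filter.eventually_all_finset]
      intro x hx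
      have him : i < m := Finset.mem_range.1 hi
      have hmem : ∀ y ∈ ({B (lo C x), B (up C x), B.symm (lo C x), B.symm (up C x)} : Finset ℝ),
          lo C y < y ∧ y < up C y := by
        intro y hy
        have hy' : y ∈ X (i + 1) := by
          simp only [hX, XX, Finset.mem_biUnion]
          exact ⟨x, hx, hy⟩
        obtain ⟨_, h2, _, h4, _⟩ := hXb (i + 1) him y hy'
        exact ⟨h2, h4⟩
      obtain ⟨u1, u2⟩ := hmem (B (lo C x)) (by simp)
      obtain ⟨v1, v2⟩ := hmem (B (up C x)) (by simp)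
      obtain ⟨w1, w2⟩ := hmem (B.symm (lo C x)) (by simp)
      obtain ⟨z1, z2⟩ := hmem (B.symm (up C x)) (by simp)
      filter_upwards [ev1 B _ _ u1, ev2 B _ _ u2, ev1 B _ _ v1, ev2 B _ _ v2,
        ev1 B.symm _ _ w1, ev2 B.symm _ _ w2, ev1 B.symm _ _ z1, ev2 B.symm _ _ z2]
        with δ h1 h2 h3 h4 h5 h6 h7 h8
      exact ⟨⟨h1, h2⟩, ⟨h3, h4⟩, ⟨h5, h6⟩, ⟨h7, h8⟩⟩
    · rw [Filter.eventually_all_finset]
      intro x hx
      obtain ⟨h1, _, h3, _, _⟩ := hXb m le_rfl x hx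
      have n1 : 0 < |B p - lo C x| := abs_pos.2 (by
        intro h; apply hbpC; rw [sub_eq_zero.1 h]; exact h1)
      have n2 : 0 < |B p - up C x| := abs_pos.2 (by
        intro h; apply hbpC; rw [sub_eq_zero.1 h]; exact h3)
      filter_upwards [ev3 _ n1, ev3 _ n2] with δ h5 h6
      exact ⟨h5, h6⟩
    · rw [Filter.eventually_all_finset]
      intro i hi
      rw [Filter.eventually_all_finset]
      intro x hx
      obtain ⟨_, h2, _, h4, _⟩ := hXb i (Nat.lt_succ_iff.1 (Finset.mem_range.1 hi)) x hx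
      filter_upwards [ev3 ((up C x - lo C x) / 2) (by linarith)] with δ h5
      linarith
  obtain ⟨δ, hδ0, ⟨hδp1, hδp2⟩, hδB, hδC, hδD⟩ := hev.exists
  -- displacement
  set Y := (Finset.range (m + 1)).biUnion X with hY
  have hYX : ∀ x ∈ Y, ∃ i ≤ m, x ∈ X i := by
    intro x hx
    obtain ⟨i, hi, hxi⟩ := Finset.mem_biUnion.1 hx
    exact ⟨i, Nat.lt_succ_iff.1 (Finset.mem_range.1 hi), hxi⟩
  obtain ⟨g, hgS, hg⟩ := displace φ S (lo C) (up C) Y (fun x => lo C x + δ) (fun x => up C x - δ)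
    (fun x hx s hs => by
      obtain ⟨i, hi, hxi⟩ := hYX x hx
      exact (hXb i hi x hxi).1 s hs)
    (fun x hx s hs => by
      obtain ⟨i, hi, hxi⟩ := hYX x hx
      exact (hXb i hi x hxi).2.2.1 s hs)
    (fun x _ => by simp [hδ0])
    (fun x hx => by
      obtain ⟨i, hi, hxi⟩ := hYX x hx
      exact hδD i (Finset.mem_range.2 (Nat.lt_succ_of_le hi)) x hxi)
    (fun x _ => by simp [hδ0])
    (fun x hx t h1 h2 => by
      obtain ⟨i, hi, hxi⟩ := hYX x hx
      have h3 : t ∉ C := not_mem_of_between h1 h2 (hXb i hi x hxi).2.2.2.2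
      by_contra hc
      push Not at hc
      exact h3 hc)
  -- near predicates
  have step1 : ∀ i ≤ m, ∀ z, (∃ x ∈ X i, lo C x + δ ≤ z ∧ z ≤ up C x - δ) →
      (∃ x ∈ X i, |φ g z - lo C x| < δ ∨ |φ g z - up C x| < δ) ∧
      (∃ x ∈ X i, |φ g⁻¹ z - lo C x| < δ ∨ |φ g⁻¹ z - up C x| < δ) := by
    intro i hi z hz
    obtain ⟨x, hx, hz1, hz2⟩ := hz
    obtain ⟨h1, h2, h3, h4, _⟩ := hXb i hi x hx
    have hgl : φ g (lo C x) = lo C x := h1 g hgS
    have hgr : φ g (up C x) = up C x := h3 g hgS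
    have hgl' : φ g⁻¹ (lo C x) = lo C x := h1 g⁻¹ (S.inv_mem hgS)
    have hgr' : φ g⁻¹ (up C x) = up C x := h3 g⁻¹ (S.inv_mem hgS)
    have a1 : lo C x < φ g z := by
      have := (φ g).strictMono (show lo C x < z by linarith)
      rwa [hgl] at this
    have a2 : φ g z < up C x := by
      have := (φ g).strictMono (show z < up C x by linarith)
      rwa [hgr] at this
    have a3 : lo C x < φ g⁻¹ z := by
      have := (φ g⁻¹).strictMono (show lo C x < z by linarith)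
      rwa [hgl'] at this
    have a4 : φ g⁻¹ z < up C x := by
      have := (φ g⁻¹).strictMono (show z < up C x by linarith)
      rwa [hgr'] at this
    have hxY : x ∈ Y := Finset.mem_biUnion.2 ⟨i, Finset.mem_range.2 (Nat.lt_succ_of_le hi), hx⟩
    rcases hg x hxY with h5 | h5
    · have h6 : φ g z < lo C x + δ := lt_of_le_of_lt ((φ g).monotone hz2) h5
      have h7 : up C x - δ < φ g⁻¹ z := by
        have := (φ g⁻¹).strictMono h5
        rw [phi_inv_apply] at this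
        exact lt_of_lt_of_le this ((φ g⁻¹).monotone hz1)
      exact ⟨⟨x, hx, Or.inl (by rw [abs_lt]; constructor <;> linarith)⟩,
        ⟨x, hx, Or.inr (by rw [abs_lt]; constructor <;> linarith)⟩⟩
    · have h6 : up C x - δ < φ g z := lt_of_lt_of_le h5 ((φ g).monotone hz1)
      have h7 : φ g⁻¹ z < lo C x + δ := by
        have := (φ g⁻¹).strictMono h5
        rw [phi_inv_apply] at this
        exact lt_of_le_of_lt ((φ g⁻¹).monotone hz2) this
      exact ⟨⟨x, hx, Or.inr (by rw [abs_lt]; constructor <;> linarith)⟩,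
        ⟨x, hx, Or.inl (by rw [abs_lt]; constructor <;> linarith)⟩⟩
  have step2 : ∀ i < m, ∀ z, (∃ x ∈ X i, |z - lo C x| < δ ∨ |z - up C x| < δ) →
      (∃ x ∈ X (i + 1), lo C x + δ ≤ φ b z ∧ φ b z ≤ up C x - δ) ∧
      (∃ x ∈ X (i + 1), lo C x + δ ≤ φ b⁻¹ z ∧ φ b⁻¹ z ≤ up C x - δ) := by
    intro i hi z hz
    obtain ⟨x, hx, hz⟩ := hz
    obtain ⟨⟨u1, u2⟩, ⟨v1, v2⟩, ⟨w1, w2⟩, ⟨z1, z2⟩⟩ := hδB i (Finset.mem_range.2 hi) x hx
    have hmem : ∀ y ∈ ({B (lo C x), B (up C x), B.symm (lo C x), B.symm (up C x)} : Finset ℝ),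
        y ∈ X (i + 1) := by
      intro y hy
      simp only [hX, XX, Finset.mem_biUnion]
      exact ⟨x, hx, hy⟩
    rw [← hsymm]
    rcases hz with hz | hz
    · rw [abs_lt] at hz
      refine ⟨⟨B (lo C x), hmem _ (by simp), ?_, ?_⟩, ⟨B.symm (lo C x), hmem _ (by simp), ?_, ?_⟩⟩
      · exact le_trans u1 (B.monotone (by linarith))
      · exact le_trans (B.monotone (by linarith)) u2
      · exact le_trans w1 (B.symm.monotone (by linarith))
      · exact le_trans (B.symm.monotone (by linarith)) w2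
    · rw [abs_lt] at hz
      refine ⟨⟨B (up C x), hmem _ (by simp), ?_, ?_⟩, ⟨B.symm (up C x), hmem _ (by simp), ?_, ?_⟩⟩
      · exact le_trans v1 (B.monotone (by linarith))
      · exact le_trans (B.monotone (by linarith)) v2
      · exact le_trans z1 (B.symm.monotone (by linarith))
      · exact le_trans (B.symm.monotone (by linarith)) z2
  have step3 : ∀ j i, i + kk j ≤ m → ∀ z, (∃ x ∈ X i, lo C x + δ ≤ z ∧ z ≤ up C x - δ) →
      (∃ x ∈ X (i + kk j), |φ ((fun w => w * b * w⁻¹)^[j] g) z - lo C x| < δ ∨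
        |φ ((fun w => w * b * w⁻¹)^[j] g) z - up C x| < δ) ∧
      (∃ x ∈ X (i + kk j), |φ ((fun w => w * b * w⁻¹)^[j] g)⁻¹ z - lo C x| < δ ∨
        |φ ((fun w => w * b * w⁻¹)^[j] g)⁻¹ z - up C x| < δ) := by
    intro j
    induction j with
    | zero => intro i hi z hz; simpa [kk] using step1 i (by simpa [kk] using hi) z hz
    | succ j ih =>
      intro i hi z hz
      have hk : kk (j + 1) = 2 * kk j + 1 := rfl
      rw [Function.iterate_succ_apply']
      set w := (fun w => w * b * w⁻¹)^[j] g with hw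
      have e1 : (w * b * w⁻¹)⁻¹ = w * b⁻¹ * w⁻¹ := by group
      obtain ⟨_, h2⟩ := ih i (by omega) z hz
      obtain ⟨h3, h4⟩ := step2 (i + kk j) (by omega) _ h2
      obtain ⟨h5, _⟩ := ih (i + kk j + 1) (by omega) _ h3
      obtain ⟨h7, _⟩ := ih (i + kk j + 1) (by omega) _ h4
      have e2 : i + kk j + 1 + kk j = i + kk (j + 1) := by omega
      rw [e2] at h5 h7
      refine ⟨?_, ?_⟩
      · show ∃ x ∈ X (i + kk (j + 1)), |φ (w * b * w⁻¹) z - lo C x| < δ ∨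
          |φ (w * b * w⁻¹) z - up C x| < δ
        rw [phi_mul, phi_mul]
        exact h5
      · show ∃ x ∈ X (i + kk (j + 1)), |φ (w * b * w⁻¹)⁻¹ z - lo C x| < δ ∨
          |φ (w * b * w⁻¹)⁻¹ z - up C x| < δ
        rw [e1, phi_mul, phi_mul]
        exact h7
  obtain ⟨⟨x, hx, hxx⟩, _⟩ := step3 n 0 (by rw [zero_add]) p
    ⟨p, by simp [hX, XX], hδp1, hδp2⟩
  rw [hb g, zero_add] at *
  obtain ⟨q1, q2⟩ := hδC x hx
  rcases hxx with h | h
  · exact absurd h (not_lt.2 q1)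
  · exact absurd h (not_lt.2 q2)

end Pool.Agent.Helper580.Engel
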