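import Mathlib
import Pool.Agent.Helper580.Engel.Meet

set_option autoImplicit false

namespace Pool.Agent.Helper580.Engel

open Filter Topology

variable {G : Type*} [Group G]

theorem engel_succ (n : ℕ) (b : G) (hb : ∀ g : G, (fun w => w * b * w⁻¹)^[n] g = b) (g : G) :
    (fun w => w * b * w⁻¹)^[n + 1] g = b := by
  rw [Function.iterate_succ_apply]; exact hb _

/-- right-hand form of the iterated commutator -/
theorem psi_kappa (b g : G) (j : ℕ) :
    (fun y => y * (b * y * b⁻¹)⁻¹)^[j + 1] g = ((fun w => w * b * w⁻¹)^[j + 1] g) * b⁻¹ := by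
  induction j with
  | zero => simp [mul_assoc]
  | succ j ih =>
    rw [Function.iterate_succ_apply', ih,
      Function.iterate_succ_apply' (fun w => w * b * w⁻¹) (j + 1) g]
    generalize (fun w => w * b * w⁻¹)^[j + 1] g = W
    group

theorem kappa_comm (b x : G) (j : ℕ) :
    (fun y => y * (b * y * b⁻¹)⁻¹)^[j] x =
      (b ^ j * ((fun z => z⁻¹ * b⁻¹ * z * b)^[j] x⁻¹) * (b ^ j)⁻¹)⁻¹ := by
  induction j with
  | zero => simp
  | succ j ih =>
    rw [Function.iterate_succ_apply', ih, Function.iterate_succ_apply' (fun z => z⁻¹ * b⁻¹ * z * b)]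
    simp only [pow_succ]
    group

/-- the left Engel condition in the form used on the line -/
theorem eng_iff (b : G) (n : ℕ) (h : ∀ x : G, (fun z : G => z⁻¹ * b⁻¹ * z * b)^[n] x = 1) (g : G) :
    (fun w => w * b * w⁻¹)^[n] g = b := by
  cases n with
  | zero =>
    have h1 := h g
    have h2 := h b
    simp only [Function.iterate_zero, id_eq] at h1 h2 ⊢
    rw [h1, h2]
  | succ n =>
    have h1 := psi_kappa b g n
    rw [kappa_comm, h] at h1
    simp only [mul_one, mul_inv_cancel, inv_one] at h1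
    exact (mul_inv_eq_one.1 h1.symm)

theorem kappa_left (b x : G) (j : ℕ) : ∃ q ∈ Subgroup.closure {y | ∃ k, 1 ≤ k ∧ k ≤ j ∧ y = b ^ k * x * (b ^ k)⁻¹},
    (fun y => y * (b * y * b⁻¹)⁻¹)^[j] x = x * q := by
  induction j with
  | zero => exact ⟨1, Subgroup.one_mem _, by simp⟩
  | succ j ih =>
    obtain ⟨q, hq, hqe⟩ := ih
    refine ⟨q * (b * (x * q) * b⁻¹)⁻¹, ?_, ?_⟩
    · have hmono : Subgroup.closure {y | ∃ k, 1 ≤ k ∧ k ≤ j ∧ y = b ^ k * x * (b ^ k)⁻¹} ≤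
          Subgroup.closure {y | ∃ k, 1 ≤ k ∧ k ≤ j + 1 ∧ y = b ^ k * x * (b ^ k)⁻¹} :=
        Subgroup.closure_mono (by rintro y ⟨k, h1, h2, rfl⟩; exact ⟨k, h1, by omega, rfl⟩)
      have hshift : b * q * b⁻¹ ∈
          Subgroup.closure {y | ∃ k, 1 ≤ k ∧ k ≤ j + 1 ∧ y = b ^ k * x * (b ^ k)⁻¹} := by
        have : Subgroup.closure {y | ∃ k, 1 ≤ k ∧ k ≤ j ∧ y = b ^ k * x * (b ^ k)⁻¹} ≤
            (Subgroup.closure {y | ∃ k, 1 ≤ k ∧ k ≤ j + 1 ∧ y = b ^ k * x * (b ^ k)⁻¹}).comap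
              (MulAut.conj b).toMonoidHom := by
          rw [Subgroup.closure_le]
          rintro y ⟨k, h1, h2, rfl⟩
          apply Subgroup.subset_closure
          refine ⟨k + 1, by omega, by omega, ?_⟩
          simp only [MulEquiv.coe_toMonoidHom, MulAut.conj_apply, pow_succ']
          group
        have h3 := this hq
        simpa using h3
      have hx1 : b * x * b⁻¹ ∈
          Subgroup.closure {y | ∃ k, 1 ≤ k ∧ k ≤ j + 1 ∧ y = b ^ k * x * (b ^ k)⁻¹} :=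
        Subgroup.subset_closure ⟨1, le_rfl, by omega, by simp⟩
      apply Subgroup.mul_mem _ (hmono hq)
      apply Subgroup.inv_mem
      have : b * (x * q) * b⁻¹ = (b * x * b⁻¹) * (b * q * b⁻¹) := by group
      rw [this]
      exact Subgroup.mul_mem _ hx1 hshift
    · rw [Function.iterate_succ_apply', hqe]
      simp only [mul_assoc]

theorem kappa_right (b x : G) (j : ℕ) : ∃ p ∈ Subgroup.closure {y | ∃ k, k < j ∧ y = b ^ k * x * (b ^ k)⁻¹},
    ∃ q ∈ Subgroup.closure {y | ∃ k, k < j ∧ y = b ^ k * x * (b ^ k)⁻¹},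
    (fun y => y * (b * y * b⁻¹)⁻¹)^[j] x = p * (b ^ j * x * (b ^ j)⁻¹) * q ∨
    (fun y => y * (b * y * b⁻¹)⁻¹)^[j] x = p * (b ^ j * x * (b ^ j)⁻¹)⁻¹ * q := by
  induction j with
  | zero => exact ⟨1, Subgroup.one_mem _, 1, Subgroup.one_mem _, Or.inl (by simp)⟩
  | succ j ih =>
    obtain ⟨p, hp, q, hq, hpq⟩ := ih
    have hmono : Subgroup.closure {y | ∃ k, k < j ∧ y = b ^ k * x * (b ^ k)⁻¹} ≤
        Subgroup.closure {y | ∃ k, k < j + 1 ∧ y = b ^ k * x * (b ^ k)⁻¹} :=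
      Subgroup.closure_mono (by rintro y ⟨k, h1, rfl⟩; exact ⟨k, by omega, rfl⟩)
    have hshift : ∀ z ∈ Subgroup.closure {y | ∃ k, k < j ∧ y = b ^ k * x * (b ^ k)⁻¹}, b * z * b⁻¹ ∈
        Subgroup.closure {y | ∃ k, k < j + 1 ∧ y = b ^ k * x * (b ^ k)⁻¹} := by
      have : Subgroup.closure {y | ∃ k, k < j ∧ y = b ^ k * x * (b ^ k)⁻¹} ≤
          (Subgroup.closure {y | ∃ k, k < j + 1 ∧ y = b ^ k * x * (b ^ k)⁻¹}).comap
            (MulAut.conj b).toMonoidHom := by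
        rw [Subgroup.closure_le]
        rintro y ⟨k, h1, rfl⟩
        apply Subgroup.subset_closure
        refine ⟨k + 1, by omega, ?_⟩
        simp only [MulEquiv.coe_toMonoidHom, MulAut.conj_apply, pow_succ']
        group
      intro z hz
      have h3 := this hz
      simpa using h3
    have hxj : b ^ j * x * (b ^ j)⁻¹ ∈
        Subgroup.closure {y | ∃ k, k < j + 1 ∧ y = b ^ k * x * (b ^ k)⁻¹} :=
      Subgroup.subset_closure ⟨j, by omega, rfl⟩
    rcases hpq with h | h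
    · refine ⟨p * (b ^ j * x * (b ^ j)⁻¹) * q * (b * q * b⁻¹)⁻¹, ?_, (b * p * b⁻¹)⁻¹, ?_, Or.inr ?_⟩
      · exact Subgroup.mul_mem _ (Subgroup.mul_mem _ (Subgroup.mul_mem _ (hmono hp) hxj) (hmono hq))
          (Subgroup.inv_mem _ (hshift q hq))
      · exact Subgroup.inv_mem _ (hshift p hp)
      · rw [Function.iterate_succ_apply', h]
        simp only [pow_succ']
        group
    · refine ⟨p * (b ^ j * x * (b ^ j)⁻¹)⁻¹ * q * (b * q * b⁻¹)⁻¹, ?_, (b * p * b⁻¹)⁻¹, ?_, Or.inl ?_⟩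
      · exact Subgroup.mul_mem _ (Subgroup.mul_mem _ (Subgroup.mul_mem _ (hmono hp)
          (Subgroup.inv_mem _ hxj)) (hmono hq)) (Subgroup.inv_mem _ (hshift q hq))
      · exact Subgroup.inv_mem _ (hshift p hp)
      · rw [Function.iterate_succ_apply', h]
        simp only [pow_succ']
        group

/-- (Q): n consecutive conjugates generate -/
theorem Q_prev (n : ℕ) (b : G) (hb : ∀ g : G, (fun w => w * b * w⁻¹)^[n + 1] g = b) (x : G) (H : Subgroup G)
    (hH : ∀ k < n + 1, b ^ k * x * (b ^ k)⁻¹ ∈ H) : b⁻¹ * x * b ∈ H := by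
  obtain ⟨q, hq, hqe⟩ := kappa_left b (b⁻¹ * x * b) (n + 1)
  rw [psi_kappa, hb, mul_inv_cancel] at hqe
  have h1 : b⁻¹ * x * b = q⁻¹ := by
    rw [eq_inv_iff_mul_eq_one]; exact hqe.symm
  rw [h1]
  apply H.inv_mem
  refine (Subgroup.closure_le H).2 ?_ hq
  rintro y ⟨k, h2, h3, rfl⟩
  obtain ⟨l, rfl⟩ : ∃ l, k = l + 1 := ⟨k - 1, by omega⟩
  have := hH l (by omega)
  have e : b ^ (l + 1) * (b⁻¹ * x * b) * (b ^ (l + 1))⁻¹ = b ^ l * x * (b ^ l)⁻¹ := by
    rw [pow_succ]; group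
  rw [e]; exact this

theorem Q_next (n : ℕ) (b : G) (hb : ∀ g : G, (fun w => w * b * w⁻¹)^[n + 1] g = b) (x : G) (H : Subgroup G)
    (hH : ∀ k < n + 1, b ^ k * x * (b ^ k)⁻¹ ∈ H) : b ^ (n + 1) * x * (b ^ (n + 1))⁻¹ ∈ H := by
  obtain ⟨p, hp, q, hq, hpq⟩ := kappa_right b x (n + 1)
  rw [psi_kappa, hb, mul_inv_cancel] at hpq
  have hpH : p ∈ H := by
    refine (Subgroup.closure_le H).2 ?_ hp
    rintro y ⟨k, h2, rfl⟩
    exact hH k h2
  have hqH : q ∈ H := by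
    refine (Subgroup.closure_le H).2 ?_ hq
    rintro y ⟨k, h2, rfl⟩
    exact hH k h2
  rcases hpq with h | h
  · have e : b ^ (n + 1) * x * (b ^ (n + 1))⁻¹ = p⁻¹ * q⁻¹ := by
      have h2 : p * (b ^ (n + 1) * x * (b ^ (n + 1))⁻¹) * q = 1 := h.symm
      have h3 : b ^ (n + 1) * x * (b ^ (n + 1))⁻¹ =
          p⁻¹ * (p * (b ^ (n + 1) * x * (b ^ (n + 1))⁻¹) * q) * q⁻¹ := by group
      rw [h3, h2, mul_one]
    rw [e]; exact H.mul_mem (H.inv_mem hpH) (H.inv_mem hqH)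
  · have e : b ^ (n + 1) * x * (b ^ (n + 1))⁻¹ = q * p := by
      have h2 : p * (b ^ (n + 1) * x * (b ^ (n + 1))⁻¹)⁻¹ * q = 1 := h.symm
      have h3 : (b ^ (n + 1) * x * (b ^ (n + 1))⁻¹)⁻¹ =
          p⁻¹ * (p * (b ^ (n + 1) * x * (b ^ (n + 1))⁻¹)⁻¹ * q) * q⁻¹ := by group
      rw [h2, mul_one] at h3
      rw [← inv_inv (b ^ (n + 1) * x * (b ^ (n + 1))⁻¹), h3]
      group
    rw [e]; exact H.mul_mem hqH hpH

/-- stabiliser of a point -/
def St (φ : G →* (ℝ ≃o ℝ)) (t : ℝ) : Subgroup G where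
  carrier := {g | φ g t = t}
  mul_mem' := by
    intro a c ha hc
    show φ (a * c) t = t
    rw [phi_mul, hc, ha]
  one_mem' := phi_one φ t
  inv_mem' := by
    intro a ha
    show φ a⁻¹ t = t
    have : φ a t = t := ha
    conv_lhs => rw [← this]
    exact phi_inv_apply φ a t

theorem mem_St (φ : G →* (ℝ ≃o ℝ)) (t : ℝ) (g : G) : g ∈ St φ t ↔ φ g t = t := Iff.rfl

theorem fixS_closure (φ : G →* (ℝ ≃o ℝ)) (A : Set G) (t : ℝ) (h : ∀ a ∈ A, φ a t = t) :
    t ∈ FixS φ (Subgroup.closure A) := by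
  intro s hs
  have : Subgroup.closure A ≤ St φ t := (Subgroup.closure_le _).2 h
  exact this hs

theorem UA_mono {C D : Set ℝ} (h : C ⊆ D) (hC : UA C) : UA D := by
  intro M; obtain ⟨t, ht, hM⟩ := hC M; exact ⟨t, h ht, hM⟩

theorem iter_UA (φ : G →* (ℝ ≃o ℝ)) (n : ℕ) (b : G) (hb : ∀ g : G, (fun w => w * b * w⁻¹)^[n] g = b)
    (S : Subgroup G) (hUA : UA (FixS φ S)) (i : ℕ) :
    UA {t | ∀ k ≤ i, ∀ s ∈ S, φ (b ^ k * s * (b ^ k)⁻¹) t = t} := by
  induction i with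
  | zero =>
    refine UA_mono ?_ hUA
    intro t ht k hk s hs
    obtain rfl : k = 0 := by omega
    simpa using ht s hs
  | succ i ih =>
    set A : Set G := {y | ∃ k ≤ i, ∃ s ∈ S, y = b ^ k * s * (b ^ k)⁻¹} with hA
    have h1 : UA (FixS φ (Subgroup.closure A)) := by
      refine UA_mono ?_ ih
      intro t ht
      apply fixS_closure
      rintro y ⟨k, hk, s, hs, rfl⟩
      exact ht k hk s hs
    refine UA_mono ?_ (meet_UA φ n b hb _ h1)
    rintro t ⟨h2, h3⟩ k hk s hs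
    rcases Nat.eq_zero_or_pos k with rfl | hkpos
    · exact h2 _ (Subgroup.subset_closure ⟨0, Nat.zero_le _, s, hs, rfl⟩)
    · obtain ⟨l, rfl⟩ : ∃ l, k = l + 1 := ⟨k - 1, by omega⟩
      have h4 : φ (b ^ l * s * (b ^ l)⁻¹) (φ b⁻¹ t) = φ b⁻¹ t :=
        h3 _ (Subgroup.subset_closure ⟨l, by omega, s, hs, rfl⟩)
      have e : b ^ (l + 1) * s * (b ^ (l + 1))⁻¹ = b * (b ^ l * s * (b ^ l)⁻¹) * b⁻¹ := by
        rw [pow_succ']; group
      rw [e, phi_mul, phi_mul, h4, phi_apply_inv]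

/-- COR, one element added -/
theorem add_UA (φ : G →* (ℝ ≃o ℝ)) (n : ℕ) (b : G) (hb : ∀ g : G, (fun w => w * b * w⁻¹)^[n] g = b)
    (S : Subgroup G) (hUA : UA (FixS φ S)) (hbUA : UA {t | φ b t = t}) :
    UA {t | t ∈ FixS φ S ∧ φ b t = t} := by
  intro M
  set Z : Set ℝ := {t | ∀ k < n + 1, ∀ s ∈ S, φ (b ^ k * s * (b ^ k)⁻¹) t = t} with hZ
  have hZUA : UA Z := by
    refine UA_mono ?_ (iter_UA φ n b hb S hUA n)
    intro t ht k hk s hs
    exact ht k (by omega) s hs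
  have hb1 := engel_succ n b hb
  have hZclosed : IsClosed Z := by
    have : Z = ⋂ k < n + 1, ⋂ s ∈ S, {t | φ (b ^ k * s * (b ^ k)⁻¹) t = t} := by
      ext t; simp [hZ]
    rw [this]
    exact isClosed_biInter (fun k _ => isClosed_biInter (fun s _ =>
      isClosed_eq (φ _).continuous continuous_id))
  have hZb : ∀ t ∈ Z, φ b t ∈ Z := by
    intro t ht k hk s hs
    have h1 : b⁻¹ * s * b ∈ St φ t := Q_prev n b hb1 s (St φ t) (fun k hk => ht k hk s hs)
    have h2 : b⁻¹ * (b ^ k * s * (b ^ k)⁻¹) * b ∈ St φ t := by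
      rcases Nat.eq_zero_or_pos k with rfl | hkpos
      · simpa using h1
      · obtain ⟨l, rfl⟩ : ∃ l, k = l + 1 := ⟨k - 1, by omega⟩
        have e : b⁻¹ * (b ^ (l + 1) * s * (b ^ (l + 1))⁻¹) * b = b ^ l * s * (b ^ l)⁻¹ := by
          rw [pow_succ']; group
        rw [e]; exact ht l (by omega) s hs
    have h3 : φ (b⁻¹ * (b ^ k * s * (b ^ k)⁻¹) * b) t = t := h2
    rw [phi_mul, phi_mul] at h3
    have h4 := congrArg (φ b) h3
    rwa [phi_apply_inv] at h4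
  have hZb' : ∀ t ∈ Z, φ b⁻¹ t ∈ Z := by
    intro t ht k hk s hs
    have h1 : b ^ (n + 1) * s * (b ^ (n + 1))⁻¹ ∈ St φ t :=
      Q_next n b hb1 s (St φ t) (fun k hk => ht k hk s hs)
    have h2 : b * (b ^ k * s * (b ^ k)⁻¹) * b⁻¹ ∈ St φ t := by
      have e : b * (b ^ k * s * (b ^ k)⁻¹) * b⁻¹ = b ^ (k + 1) * s * (b ^ (k + 1))⁻¹ := by
        rw [pow_succ']; group
      rw [e]
      rcases Nat.lt_or_ge (k + 1) (n + 1) with h | h
      · exact ht (k + 1) h s hs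
      · obtain rfl : k = n := by omega
        exact h1
    have h3 : φ (b * (b ^ k * s * (b ^ k)⁻¹) * b⁻¹) t = t := h2
    rw [phi_mul, phi_mul] at h3
    have h4 := congrArg (φ b⁻¹) h3
    rwa [phi_inv_apply] at h4
  obtain ⟨x0, hx0, hx0M⟩ := hbUA M
  obtain ⟨t, htZ, htx⟩ := hZUA x0
  have hx0' : φ b x0 = x0 := hx0
  have hstab : ∀ k : ℤ, φ (b ^ k) x0 = x0 := by
    intro k
    have : b ∈ St φ x0 := hx0'
    exact (St φ x0).zpow_mem this k
  have hZk : ∀ k : ℕ, φ (b ^ (k : ℤ)) t ∈ Z ∧ φ (b ^ (-(k : ℤ))) t ∈ Z := by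
    intro k
    induction k with
    | zero => simpa [phi_one] using htZ
    | succ k ih =>
      constructor
      · have e : b ^ ((k + 1 : ℕ) : ℤ) = b * b ^ (k : ℤ) := by
          push_cast; rw [add_comm, zpow_add, zpow_one]
        rw [e, phi_mul]; exact hZb _ ih.1
      · have e : b ^ (-((k + 1 : ℕ) : ℤ)) = b⁻¹ * b ^ (-(k : ℤ)) := by
          push_cast; rw [neg_add, add_comm, zpow_add, zpow_neg_one]
        rw [e, phi_mul]; exact hZb' _ ih.2
  have hZz : ∀ k : ℤ, φ (b ^ k) t ∈ Z := by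
    intro k
    obtain ⟨m, rfl | rfl⟩ := k.eq_nat_or_neg
    · exact (hZk m).1
    · exact (hZk m).2
  set A : Set ℝ := {a | ∃ k : ℤ, φ (b ^ k) t = a} with hA
  have hne : A.Nonempty := ⟨_, 0, rfl⟩
  have hlow : ∀ a ∈ A, x0 ≤ a := by
    rintro a ⟨k, rfl⟩
    have := (φ (b ^ k)).monotone htx.le
    rwa [hstab k] at this
  have hbdd : BddBelow A := ⟨x0, hlow⟩
  have hz : sInf A ∈ closure A := csInf_mem_closure hne hbdd
  have hAZ : A ⊆ Z := by rintro a ⟨k, rfl⟩; exact hZz k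
  have hzZ : sInf A ∈ Z := (closure_minimal hAZ hZclosed) hz
  have hx0z : x0 ≤ sInf A := le_csInf hne hlow
  have hinv : ∀ e : ℤ, φ (b ^ e) (sInf A) ≤ sInf A := by
    intro e
    apply le_csInf hne
    rintro a ⟨k, rfl⟩
    have h5 : sInf A ≤ φ (b ^ (-e + k)) t := csInf_le hbdd ⟨-e + k, rfl⟩
    have h6 := (φ (b ^ e)).monotone h5
    rw [← phi_mul, ← zpow_add] at h6
    simpa using h6
  have hfix : φ b (sInf A) = sInf A := by
    apply le_antisymm
    · simpa using hinv 1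
    · have h7 := hinv (-1)
      rw [zpow_neg_one] at h7
      have h8 := (φ b).monotone h7
      rwa [phi_apply_inv] at h8
  refine ⟨sInf A, ⟨?_, hfix⟩, lt_of_lt_of_le hx0M hx0z⟩
  intro s hs
  have := hzZ 0 (Nat.succ_pos n) s hs
  simpa using this

/-- finitely many elements with fixed points unboundedly far have common ones -/
theorem common_UA (φ : G →* (ℝ ≃o ℝ)) (n : ℕ) (T : Finset G)
    (hT : ∀ b ∈ T, (∀ g : G, (fun w => w * b * w⁻¹)^[n] g = b) ∧ UA {t | φ b t = t}) :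
    UA {z | ∀ b ∈ T, φ b z = z} := by
  classical
  induction T using Finset.induction_on with
  | empty => intro M; exact ⟨M + 1, by simp, by linarith⟩
  | insert c T _ ih =>
    have ih' := ih (fun b hb => hT b (Finset.mem_insert_of_mem hb))
    obtain ⟨hc1, hc2⟩ := hT c (Finset.mem_insert_self c T)
    have h1 : UA (FixS φ (Subgroup.closure (T : Set G))) := by
      refine UA_mono ?_ ih'
      intro t ht
      exact fixS_closure φ _ t ht
    refine UA_mono ?_ (add_UA φ n c hc1 _ h1 hc2)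
    rintro t ⟨h2, h3⟩ b hb
    rcases Finset.mem_insert.1 hb with rfl | hb
    · exact h3
    · exact h2 b (Subgroup.subset_closure hb)

end Pool.Agent.Helper580.Engel
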