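import Mathlib
import Pool.Agent.Helper580.Engel.Cor

set_option autoImplicit false

namespace Pool.Agent.Helper580.Engel

open Filter Topology

variable {G : Type*} [Group G]

/-- all points reached within k steps are beyond M -/
def Far (Cs : Bool → Set ℝ) (M : ℝ) : ℕ → ℝ → Prop
  | 0, x => M < x
  | k + 1, x => M < x ∧ ∀ b, Far Cs M k (lo (Cs b) x) ∧ Far Cs M k (up (Cs b) x)

theorem Far.base {Cs : Bool → Set ℝ} {M : ℝ} {k : ℕ} {x : ℝ} (h : Far Cs M k x) : M < x := by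
  cases k with
  | zero => exact h
  | succ k => exact h.1

theorem exists_far {Cs : Bool → Set ℝ} (hC : ∀ b, IsClosed (Cs b)) (hUA : ∀ b, UA (Cs b)) (M : ℝ)
    (k : ℕ) : ∃ T : ℝ, ∀ x, T < x → Far Cs M k x := by
  induction k with
  | zero => exact ⟨M, fun x hx => hx⟩
  | succ k ih =>
    obtain ⟨T, hT⟩ := ih
    obtain ⟨c, hc, hcM⟩ := hUA true (max M T)
    obtain ⟨d, hd, hdM⟩ := hUA false (max M T)
    refine ⟨max c d, fun x hx => ?_⟩
    have h1 : c < x := lt_of_le_of_lt (le_max_left _ _) hx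
    have h2 : d < x := lt_of_le_of_lt (le_max_right _ _) hx
    have hM : M < x := lt_trans (lt_of_le_of_lt (le_max_left _ _) hcM) h1
    have hTx : T < x := lt_trans (lt_of_le_of_lt (le_max_right _ _) hcM) h1
    refine ⟨hM, ?_⟩
    intro b
    obtain ⟨e, he, hex, heT⟩ : ∃ e ∈ Cs b, e < x ∧ T < e := by
      cases b with
      | true => exact ⟨c, hc, h1, lt_of_le_of_lt (le_max_right _ _) hcM⟩
      | false => exact ⟨d, hd, h2, lt_of_le_of_lt (le_max_right _ _) hdM⟩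
    obtain ⟨_, _, h5⟩ := lo_mem (hC b) he hex.le
    obtain ⟨e', he', hex'⟩ := hUA b x
    obtain ⟨_, h7, _⟩ := up_mem (hC b) he' hex'.le
    exact ⟨hT _ (lt_of_lt_of_le heT h5), hT _ (lt_of_lt_of_le hTx h7)⟩

/-- the finite sets of nodes -/
noncomputable def NN (Cs : Bool → Set ℝ) (p : ℝ) : ℕ → Finset ℝ
  | 0 => {p}
  | i + 1 => (NN Cs p i).biUnion
      (fun x => {lo (Cs true) x, up (Cs true) x, lo (Cs false) x, up (Cs false) x})

theorem NN_lo {Cs : Bool → Set ℝ} {p : ℝ} {i : ℕ} {x : ℝ} (hx : x ∈ NN Cs p i) (b : Bool) :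
    lo (Cs b) x ∈ NN Cs p (i + 1) ∧ up (Cs b) x ∈ NN Cs p (i + 1) := by
  simp only [NN, Finset.mem_biUnion]
  cases b
  · exact ⟨⟨x, hx, by simp⟩, ⟨x, hx, by simp⟩⟩
  · exact ⟨⟨x, hx, by simp⟩, ⟨x, hx, by simp⟩⟩

theorem NN_far {Cs : Bool → Set ℝ} {M p : ℝ} :
    ∀ (i k : ℕ), Far Cs M (i + k) p → ∀ x ∈ NN Cs p i, Far Cs M k x := by
  intro i
  induction i with
  | zero => intro k hp x hx; simp only [NN, Finset.mem_singleton] at hx; subst hx; simpa using hp
  | succ i ih =>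
    intro k hp x hx
    simp only [NN, Finset.mem_biUnion] at hx
    obtain ⟨y, hy, hxy⟩ := hx
    have h1 : Far Cs M (k + 1) y := ih (k + 1) (by rwa [show i + (k + 1) = i + 1 + k by ring]) y hy
    obtain ⟨_, a1⟩ := h1
    simp only [Finset.mem_insert, Finset.mem_singleton] at hxy
    rcases hxy with rfl | rfl | rfl | rfl
    · exact (a1 true).1
    · exact (a1 true).2
    · exact (a1 false).1
    · exact (a1 false).2

theorem exists_p2 {Cs : Bool → Set ℝ} (hC : ∀ b, IsClosed (Cs b)) (hUA : ∀ b, UA (Cs b)) (M : ℝ)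
    (hM : ∀ t, M < t → t ∈ Cs true → t ∉ Cs false) (T : ℝ) : ∃ p, T < p ∧ ∀ b, p ∉ Cs b := by
  by_contra hcon
  push Not at hcon
  set T' := max T M with hT'
  have hpre : IsPreconnected (Set.Ioi T') := isPreconnected_Ioi
  rw [isPreconnected_closed_iff] at hpre
  obtain ⟨t, ht, ht1, ht2⟩ := hpre (Cs true) (Cs false) (hC true) (hC false) (by
      intro x hx
      obtain ⟨b, hb⟩ := hcon x (lt_of_le_of_lt (le_max_left _ _) hx)
      cases b
      · exact Or.inr hb
      · exact Or.inl hb)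
    (by obtain ⟨t, ht, htM⟩ := hUA true T'; exact ⟨t, htM, ht⟩)
    (by obtain ⟨t, ht, htM⟩ := hUA false T'; exact ⟨t, htM, ht⟩)
  exact hM t (lt_of_le_of_lt (le_max_right _ _) ht) ht1 ht2

/-- attracting zone of `g` in the interval `(l, u)` with margin `d` -/
def Zone (φ : G →* (ℝ ≃o ℝ)) (g : G) (l u d z : ℝ) : Prop :=
  (u - d < φ g (l + d) ∧ u - d < z ∧ z < u) ∨ (φ g (u - d) < l + d ∧ l < z ∧ z < l + d)

def Dsp (φ : G →* (ℝ ≃o ℝ)) (g : G) (l u d : ℝ) : Prop :=
  φ g (u - d) < l + d ∨ u - d < φ g (l + d)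

theorem Dsp.inv {φ : G →* (ℝ ≃o ℝ)} {g : G} {l u d : ℝ} (h : Dsp φ g l u d) : Dsp φ g⁻¹ l u d := by
  rcases h with h | h
  · right
    have := (φ g⁻¹).strictMono h
    rwa [phi_inv_apply] at this
  · left
    have := (φ g⁻¹).strictMono h
    rwa [phi_inv_apply] at this

theorem zone_enter {φ : G →* (ℝ ≃o ℝ)} {g : G} {l u d z : ℝ} (hl : φ g l = l) (hu : φ g u = u)
    (hd : 0 < d) (h : Dsp φ g l u d) (h1 : l + d ≤ z) (h2 : z ≤ u - d) :
    Zone φ g l u d (φ g z) := by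
  rcases h with h | h
  · right
    refine ⟨h, ?_, lt_of_le_of_lt ((φ g).monotone h2) h⟩
    have := (φ g).strictMono (show l < z by linarith)
    rwa [hl] at this
  · left
    refine ⟨h, lt_of_lt_of_le h ((φ g).monotone h1), ?_⟩
    have := (φ g).strictMono (show z < u by linarith)
    rwa [hu] at this

theorem zone_stay {φ : G →* (ℝ ≃o ℝ)} {g : G} {l u d z : ℝ} (hl : φ g l = l) (hu : φ g u = u)
    (hld : l + d ≤ u - d) (h : Zone φ g l u d z) : Zone φ g l u d (φ g z) := by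
  rcases h with ⟨h1, h2, h3⟩ | ⟨h1, h2, h3⟩
  · left
    refine ⟨h1, ?_, ?_⟩
    · have := (φ g).strictMono (show l + d < z by linarith)
      linarith
    · have := (φ g).strictMono h3
      rwa [hu] at this
  · right
    refine ⟨h1, ?_, ?_⟩
    · have := (φ g).strictMono h2
      rwa [hl] at this
    · have := (φ g).strictMono (show z < u - d by linarith)
      linarith

theorem ev4 (e a : ℝ) (h : a < e) : ∀ᶠ δ in 𝓝[>] (0:ℝ), a + δ ≤ e - δ := by
  filter_upwards [ev3 ((e - a) / 2) (by linarith)] with δ h5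
  linarith

/-- two subgroups of a group with a law: unboundedly far fixed points of each give common ones -/
theorem law_meet (φ : G →* (ℝ ≃o ℝ)) (w : FreeGroup Bool) (hw : w ≠ 1)
    (hlaw : ∀ f : Bool → G, FreeGroup.lift f w = 1) (Sb : Bool → Subgroup G)
    (hUA : ∀ b, UA (FixS φ (Sb b))) : UA (FixS φ (Sb true) ∩ FixS φ (Sb false)) := by
  classical
  by_contra hcon
  unfold UA at hcon
  push Not at hcon
  obtain ⟨M0, hM0⟩ := hcon
  set Cs : Bool → Set ℝ := fun b => FixS φ (Sb b) with hCs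
  have hCc : ∀ b, IsClosed (Cs b) := fun b => isClosed_FixS φ (Sb b)
  obtain ⟨c0, hc0C, hc0⟩ := hUA true M0
  obtain ⟨d0, hd0C, hd0⟩ := hUA false M0
  set M := max c0 d0 with hM
  have hMM0 : M0 < M := lt_of_lt_of_le hc0 (le_max_left _ _)
  have hdisj : ∀ t, M < t → t ∈ Cs true → t ∉ Cs false := by
    intro t ht h1 h2
    have := hM0 t ⟨h1, h2⟩
    linarith
  have hdisj' : ∀ b t, M < t → t ∈ Cs b → t ∉ Cs (!b) := by
    intro b t ht h1 h2
    cases b
    · exact hdisj t ht h2 h1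
    · exact hdisj t ht h1 h2
  set L := w.toWord with hL
  have hLne : L ≠ [] := by
    intro h
    exact hw (FreeGroup.toWord_eq_nil_iff.1 h)
  have hLred : FreeGroup.IsReduced L := FreeGroup.isReduced_toWord
  set m := L.length with hm
  obtain ⟨T, hT⟩ := exists_far hCc hUA M m
  obtain ⟨p, hTp, hpC⟩ := exists_p2 hCc hUA M hdisj T
  have hpF : Far Cs M m p := hT p hTp
  have hXM : ∀ i ≤ m, ∀ x ∈ NN Cs p i, M < x := by
    intro i hi x hx
    obtain ⟨k, hk⟩ := Nat.exists_eq_add_of_le hi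
    exact (NN_far i k (by rw [← hk]; exact hpF) x hx).base
  have hXb : ∀ i ≤ m, ∀ x ∈ NN Cs p i, ∀ b, x ∉ Cs b → lo (Cs b) x ∈ Cs b ∧ lo (Cs b) x < x ∧
      up (Cs b) x ∈ Cs b ∧ x < up (Cs b) x := by
    intro i hi x hx b hxb
    have h1 := hXM i hi x hx
    obtain ⟨e, he, hex⟩ : ∃ e ∈ Cs b, e ≤ x := by
      cases b with
      | true => exact ⟨c0, hc0C, le_trans (le_max_left _ _) h1.le⟩
      | false => exact ⟨d0, hd0C, le_trans (le_max_right _ _) h1.le⟩
    obtain ⟨a1, a2, _⟩ := lo_mem (hCc b) he hex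
    obtain ⟨c', hc', hcx'⟩ := hUA b x
    obtain ⟨a3, a4, _⟩ := up_mem (hCc b) hc' hcx'.le
    refine ⟨a1, lt_of_le_of_ne a2 ?_, a3, lt_of_le_of_ne a4 ?_⟩
    · intro h; exact hxb (h ▸ a1)
    · intro h; exact hxb (h ▸ a3)
  -- choice of delta
  have hev : ∀ᶠ δ in 𝓝[>] (0:ℝ), 0 < δ ∧ (∀ b, lo (Cs b) p + δ ≤ p ∧ p ≤ up (Cs b) p - δ) ∧
      (∀ i ∈ Finset.range m, ∀ x ∈ NN Cs p i, ∀ b, x ∉ Cs b →
        (lo (Cs (!b)) (lo (Cs b) x) + δ ≤ lo (Cs b) x - δ ∧
          lo (Cs b) x + δ ≤ up (Cs (!b)) (lo (Cs b) x) - δ) ∧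
        (lo (Cs (!b)) (up (Cs b) x) + δ ≤ up (Cs b) x - δ ∧
          up (Cs b) x + δ ≤ up (Cs (!b)) (up (Cs b) x) - δ)) ∧
      (∀ i ∈ Finset.range (m + 1), ∀ x ∈ NN Cs p i, ∀ b, x ∉ Cs b →
        (δ ≤ |p - lo (Cs b) x| ∧ δ ≤ |p - up (Cs b) x|) ∧
        lo (Cs b) x + δ ≤ up (Cs b) x - δ) := by
    refine Filter.Eventually.and self_mem_nhdsWithin ?_
    refine Filter.Eventually.and ?_ (Filter.Eventually.and ?_ ?_)
    · rw [Filter.eventually_all]
      intro b
      obtain ⟨_, h2, _, h4⟩ := hXb 0 (Nat.zero_le _) p (by simp [NN]) b (hpC b)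
      filter_upwards [ev3 (p - lo (Cs b) p) (by linarith), ev3 (up (Cs b) p - p) (by linarith)]
        with δ h5 h6
      constructor <;> linarith
    · rw [Filter.eventually_all_finset]
      intro i hi
      rw [Filter.eventually_all_finset]
      intro x hx
      rw [Filter.eventually_all]
      intro b
      by_cases hxb : x ∈ Cs b
      · exact Filter.Eventually.of_forall (fun δ h => absurd hxb h)
      have him : i < m := Finset.mem_range.1 hi
      obtain ⟨a1, a2, a3, a4⟩ := hXb i him.le x hx b hxb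
      obtain ⟨n1, n2⟩ := NN_lo hx b
      have m1 : lo (Cs b) x ∉ Cs (!b) := hdisj' b _ (hXM (i + 1) him _ n1) a1
      have m2 : up (Cs b) x ∉ Cs (!b) := hdisj' b _ (hXM (i + 1) him _ n2) a3
      obtain ⟨_, u1, _, u2⟩ := hXb (i + 1) him _ n1 (!b) m1
      obtain ⟨_, v1, _, v2⟩ := hXb (i + 1) him _ n2 (!b) m2
      filter_upwards [ev4 _ _ u1, ev4 _ _ u2, ev4 _ _ v1, ev4 _ _ v2] with δ h1 h2 h3 h4
      exact fun _ => ⟨⟨h1, h2⟩, ⟨h3, h4⟩⟩
    · rw [Filter.eventually_all_finset]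
      intro i hi
      rw [Filter.eventually_all_finset]
      intro x hx
      rw [Filter.eventually_all]
      intro b
      by_cases hxb : x ∈ Cs b
      · exact Filter.Eventually.of_forall (fun δ h => absurd hxb h)
      have him : i ≤ m := Nat.lt_succ_iff.1 (Finset.mem_range.1 hi)
      obtain ⟨a1, a2, a3, a4⟩ := hXb i him x hx b hxb
      have n1 : 0 < |p - lo (Cs b) x| := abs_pos.2 (by
        intro h; apply hpC b; rw [sub_eq_zero.1 h]; exact a1)
      have n2 : 0 < |p - up (Cs b) x| := abs_pos.2 (by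
        intro h; apply hpC b; rw [sub_eq_zero.1 h]; exact a3)
      filter_upwards [ev3 _ n1, ev3 _ n2, ev4 _ _ (lt_trans a2 a4)] with δ h5 h6 h7
      exact fun _ => ⟨⟨h5, h6⟩, h7⟩
  obtain ⟨δ, hδ0, hδp, hδB, hδC⟩ := hev.exists
  -- displacement
  have hgb : ∀ b : Bool, ∃ g ∈ Sb b, ∀ i ≤ m, ∀ x ∈ NN Cs p i, x ∉ Cs b →
      Dsp φ g (lo (Cs b) x) (up (Cs b) x) δ := by
    intro b
    set Y := ((Finset.range (m + 1)).biUnion (NN Cs p)).filter (fun x => x ∉ Cs b) with hY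
    have hYX : ∀ x ∈ Y, x ∉ Cs b ∧ ∃ i ≤ m, x ∈ NN Cs p i := by
      intro x hx
      obtain ⟨hx1, hx2⟩ := Finset.mem_filter.1 hx
      obtain ⟨i, hi, hxi⟩ := Finset.mem_biUnion.1 hx1
      exact ⟨hx2, i, Nat.lt_succ_iff.1 (Finset.mem_range.1 hi), hxi⟩
    obtain ⟨g, hgS, hg⟩ := displace φ (Sb b) (lo (Cs b)) (up (Cs b)) Y (fun x => lo (Cs b) x + δ)
      (fun x => up (Cs b) x - δ)
      (fun x hx s hs => by
        obtain ⟨hxb, i, hi, hxi⟩ := hYX x hx
        exact (hXb i hi x hxi b hxb).1 s hs)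
      (fun x hx s hs => by
        obtain ⟨hxb, i, hi, hxi⟩ := hYX x hx
        exact (hXb i hi x hxi b hxb).2.2.1 s hs)
      (fun x _ => by simp [hδ0])
      (fun x hx => by
        obtain ⟨hxb, i, hi, hxi⟩ := hYX x hx
        exact (hδC i (Finset.mem_range.2 (Nat.lt_succ_of_le hi)) x hxi b hxb).2)
      (fun x _ => by simp [hδ0])
      (fun x hx t h1 h2 => by
        obtain ⟨hxb, i, hi, hxi⟩ := hYX x hx
        have h3 : t ∉ Cs b := not_mem_of_between h1 h2 hxb
        by_contra hc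
        push Not at hc
        exact h3 hc)
    refine ⟨g, hgS, ?_⟩
    intro i hi x hx hxb
    exact hg x (Finset.mem_filter.2 ⟨Finset.mem_biUnion.2
      ⟨i, Finset.mem_range.2 (Nat.lt_succ_of_le hi), hx⟩, hxb⟩)
  choose gb hgbS hgbD using hgb
  set el : Bool × Bool → G := fun a => cond a.2 (gb a.1) (gb a.1)⁻¹ with hel
  have helS : ∀ a : Bool × Bool, el a ∈ Sb a.1 := by
    rintro ⟨a, s⟩
    cases s
    · exact (Sb a).inv_mem (hgbS a)
    · exact hgbS a
  have helD : ∀ a : Bool × Bool, ∀ i ≤ m, ∀ x ∈ NN Cs p i, x ∉ Cs a.1 →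
      Dsp φ (el a) (lo (Cs a.1) x) (up (Cs a.1) x) δ := by
    rintro ⟨a, s⟩ i hi x hx hxb
    cases s
    · exact (hgbD a i hi x hx hxb).inv
    · exact hgbD a i hi x hx hxb
  have hends : ∀ a : Bool × Bool, ∀ i ≤ m, ∀ x ∈ NN Cs p i, x ∉ Cs a.1 →
      φ (el a) (lo (Cs a.1) x) = lo (Cs a.1) x ∧ φ (el a) (up (Cs a.1) x) = up (Cs a.1) x := by
    intro a i hi x hx hxb
    obtain ⟨a1, _, a3, _⟩ := hXb i hi x hx a.1 hxb
    exact ⟨a1 _ (helS a), a3 _ (helS a)⟩
  have main : ∀ (L' : List (Bool × Bool)) (a : Bool × Bool), FreeGroup.IsReduced (a :: L') →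
      L'.length < m → ∃ i ≤ L'.length, ∃ x ∈ NN Cs p i, x ∉ Cs a.1 ∧
        Zone φ (el a) (lo (Cs a.1) x) (up (Cs a.1) x) δ (φ ((a :: L').map el).prod p) := by
    intro L'
    induction L' with
    | nil =>
      intro a _ _
      refine ⟨0, le_rfl, p, by simp [NN], hpC a.1, ?_⟩
      obtain ⟨e1, e2⟩ := hends a 0 (Nat.zero_le _) p (by simp [NN]) (hpC a.1)
      have hd := helD a 0 (Nat.zero_le _) p (by simp [NN]) (hpC a.1)
      simpa using zone_enter e1 e2 hδ0 hd (hδp a.1).1 (hδp a.1).2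
    | cons c L'' ih =>
      intro a hred hlen
      unfold FreeGroup.IsReduced at hred ih
      rw [List.isChain_cons_cons] at hred
      obtain ⟨hac, hred'⟩ := hred
      have hlen' : L''.length + 1 < m := by simpa using hlen
      obtain ⟨i, hi, x, hx, hxc, hz⟩ := ih c hred' (by omega)
      have him : i < m := by omega
      rw [List.map_cons, List.prod_cons, phi_mul]
      by_cases h1 : a.1 = c.1
      · have h2 : a = c := Prod.ext h1 (hac h1)
        subst h2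
        refine ⟨i, by simp; omega, x, hx, hxc, ?_⟩
        obtain ⟨e1, e2⟩ := hends a i him.le x hx hxc
        exact zone_stay e1 e2 (hδC i (Finset.mem_range.2 (by omega)) x hx _ hxc).2 hz
      · have h3 : a.1 = !c.1 := by
          cases ha : a.1 <;> cases hc : c.1 <;> simp_all
        obtain ⟨a1, a2, a3, a4⟩ := hXb i him.le x hx c.1 hxc
        obtain ⟨n1, n2⟩ := NN_lo hx c.1
        have m1 : lo (Cs c.1) x ∉ Cs a.1 := by
          rw [h3]; exact hdisj' c.1 _ (hXM (i + 1) him _ n1) a1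
        have m2 : up (Cs c.1) x ∉ Cs a.1 := by
          rw [h3]; exact hdisj' c.1 _ (hXM (i + 1) him _ n2) a3
        obtain ⟨⟨q1, q2⟩, q3, q4⟩ := hδB i (Finset.mem_range.2 him) x hx c.1 hxc
        rw [← h3] at q1 q2 q3 q4
        have hi1 : i + 1 ≤ (c :: L'').length := by simp; omega
        rcases hz with ⟨_, z2, z3⟩ | ⟨_, z2, z3⟩
        · refine ⟨i + 1, hi1, _, n2, m2, ?_⟩
          obtain ⟨e1, e2⟩ := hends a (i + 1) him _ n2 m2
          exact zone_enter e1 e2 hδ0 (helD a (i + 1) him _ n2 m2) (by linarith) (by linarith)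
        · refine ⟨i + 1, hi1, _, n1, m1, ?_⟩
          obtain ⟨e1, e2⟩ := hends a (i + 1) him _ n1 m1
          exact zone_enter e1 e2 hδ0 (helD a (i + 1) him _ n1 m1) (by linarith) (by linarith)
  obtain ⟨a, L', haL⟩ := List.exists_cons_of_ne_nil hLne
  obtain ⟨i, hi, x, hx, hxa, hz⟩ := main L' a (by rw [← haL]; exact hLred) (by
    rw [hm, haL]; simp)
  have hprod : ((a :: L').map el).prod = 1 := by
    have h1 := hlaw gb
    rw [← FreeGroup.mk_toWord (x := w), FreeGroup.lift_mk, ← hL, haL] at h1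
    exact h1
  rw [hprod, phi_one] at hz
  have him : i ≤ m := by rw [hm, haL]; simp; omega
  obtain ⟨⟨q1, q2⟩, _⟩ := hδC i (Finset.mem_range.2 (by omega)) x hx a.1 hxa
  rcases hz with ⟨_, z2, z3⟩ | ⟨_, z2, z3⟩
  · have : |p - up (Cs a.1) x| < δ := by rw [abs_lt]; constructor <;> linarith
    linarith
  · have : |p - lo (Cs a.1) x| < δ := by rw [abs_lt]; constructor <;> linarith
    linarith

end Pool.Agent.Helper580.Engel
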